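import Mathlib

/-! Translations, normalised subgroups of the symmetric group and their orbits. -/

namespace Pool.Agent.FS.AbIso

open Equiv

variable {G : Type} [AddCommGroup G]

/-- Translation by `c`. -/
def tr (c : G) : Perm G := Equiv.addRight c

theorem tr_apply (c x : G) : tr c x = x + c := rfl

theorem tr_mul (c d : G) : tr c * tr d = tr (c + d) := by
  ext x
  simp only [Perm.mul_apply, tr_apply]
  abel

theorem tr_zero : tr (0 : G) = 1 := by
  ext x
  simp [tr_apply]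

theorem tr_inv (c : G) : (tr c)⁻¹ = tr (-c) := by
  rw [inv_eq_iff_mul_eq_one, tr_mul, add_neg_cancel, tr_zero]

theorem tr_pow (c : G) (j : ℕ) : tr c ^ j = tr (j • c) := by
  induction j with
  | zero => simp [tr_zero]
  | succ j ih => rw [pow_succ, ih, tr_mul, succ_nsmul]

/-- `σ` conjugates `X` into itself. -/
def Nm {Γ : Type*} [Group Γ] (σ : Γ) (X : Subgroup Γ) : Prop := ∀ h ∈ X, σ * h * σ⁻¹ ∈ X

theorem Nm.self {Γ : Type*} [Group Γ] {σ : Γ} {X : Subgroup Γ} (h : σ ∈ X) : Nm σ X :=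
  fun _ hk => X.mul_mem (X.mul_mem h hk) (X.inv_mem h)

theorem Nm.comm {Γ : Type*} [Group Γ] {σ : Γ} {X : Subgroup Γ} (h : Nm σ X) : Nm σ ⁅X, X⁆ := by
  have hle : X.map (MulAut.conj σ).toMonoidHom ≤ X := by
    rintro _ ⟨k, hk, rfl⟩
    exact h k hk
  intro k hk
  have : (MulAut.conj σ).toMonoidHom k ∈ (⁅X, X⁆ : Subgroup Γ).map (MulAut.conj σ).toMonoidHom :=
    ⟨k, hk, rfl⟩
  rw [Subgroup.map_commutator] at this
  exact Subgroup.commutator_mono hle hle this

theorem mul_pow_mem {Γ : Type*} [Group Γ] {X : Subgroup Γ} {a b : Γ} (ha : a ∈ X) (hb : b ∈ X)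
    (j : ℕ) : (a * b) ^ j * (b ^ j)⁻¹ * (a ^ j)⁻¹ ∈ ⁅X, X⁆ := by
  induction j with
  | zero => simp
  | succ j ih =>
    have e : (a * b) ^ (j + 1) * (b ^ (j + 1))⁻¹ * (a ^ (j + 1))⁻¹ =
        a * ((b * ((a * b) ^ j * (b ^ j)⁻¹ * (a ^ j)⁻¹) * b⁻¹) *
          (b * a ^ j * b⁻¹ * (a ^ j)⁻¹)) * a⁻¹ := by
      rw [pow_succ' (a * b), pow_succ' b, pow_succ' a]
      generalize (a * b) ^ j = u
      generalize b ^ j = v
      generalize a ^ j = w
      group
    rw [e]
    exact (Nm.self ha).comm _ (mul_mem ((Nm.self hb).comm _ ih)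
      (Subgroup.commutator_mem_commutator hb (pow_mem ha j)))

/-- The orbit of `0` under a group normalised by all translations. -/
def orb (X : Subgroup (Perm G)) (hX : ∀ c, Nm (tr c) X) : AddSubgroup G where
  carrier := {c | ∃ h ∈ X, h 0 = c}
  zero_mem' := ⟨1, X.one_mem, rfl⟩
  add_mem' := by
    rintro a b ⟨h1, hh1, rfl⟩ ⟨h2, hh2, rfl⟩
    refine ⟨tr (h1 0) * h2 * (tr (h1 0))⁻¹ * h1, mul_mem (hX _ _ hh2) hh1, ?_⟩
    simp [tr_inv, tr_apply, add_comm]
  neg_mem' := by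
    rintro a ⟨h, hh, rfl⟩
    refine ⟨tr (-(h 0)) * h⁻¹ * (tr (-(h 0)))⁻¹, hX _ _ (inv_mem hh), ?_⟩
    simp [tr_inv, tr_apply]

theorem sub_mem_orb {X : Subgroup (Perm G)} (hX : ∀ c, Nm (tr c) X) (x y : G) :
    x - y ∈ orb X hX ↔ ∃ h ∈ X, h y = x := by
  constructor
  · rintro ⟨h, hh, e⟩
    refine ⟨tr y * h * (tr y)⁻¹, hX _ _ hh, ?_⟩
    simp [tr_inv, tr_apply, e]
  · rintro ⟨h, hh, e⟩
    refine ⟨tr (-y) * h * (tr (-y))⁻¹, hX _ _ hh, ?_⟩
    simp [tr_inv, tr_apply, e, sub_eq_add_neg]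

theorem card_orb {X : Subgroup (Perm G)} (hX : ∀ c, Nm (tr c) X) :
    Nat.card (orb X hX) = (MulAction.stabilizer X (0 : G)).index := by
  rw [MulAction.index_stabilizer, ← Nat.card_coe_set_eq]
  refine Nat.card_congr (Equiv.subtypeEquivRight fun c => ?_)
  constructor
  · rintro ⟨h, hh, e⟩
    exact ⟨⟨h, hh⟩, e⟩
  · rintro ⟨⟨h, hh⟩, e⟩
    exact ⟨h, hh, e⟩

theorem orb_map {X : Subgroup (Perm G)} (hX : ∀ c, Nm (tr c) X) {σ : Perm G} (hσ : Nm σ X)
    {x y : G} (h : x - y ∈ orb X hX) : σ x - σ y ∈ orb X hX := by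
  obtain ⟨k, hk, e⟩ := (sub_mem_orb hX x y).1 h
  refine (sub_mem_orb hX _ _).2 ⟨σ * k * σ⁻¹, hσ k hk, ?_⟩
  simp [e]

theorem end_eq_id {p : ℕ} [hp : Fact p.Prime] (π : ZMod p → ZMod p) (r : ℕ)
    (h : ∀ t, π^[p ^ r] t = t) (h0 : π 0 = 0) (t : ZMod p) : π t = t := by
  classical
  have hf : (show Function.End (ZMod p) from π) ^ p ^ r = 1 := by
    funext t
    have : ∀ (j : ℕ) (t : ZMod p), ((show Function.End (ZMod p) from π) ^ j) t = π^[j] t := by
      intro j
      induction j with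
      | zero => intro t; rfl
      | succ j ih => intro t; rw [pow_succ, Function.iterate_succ_apply, ← ih]; rfl
    rw [this, h]; rfl
  have hm := Equiv.Perm.card_fixedPoints_modEq hf
  rw [ZMod.card] at hm
  have hd : p ∣ Fintype.card (Function.fixedPoints π) :=
    (Nat.modEq_zero_iff_dvd).1 (hm.symm.trans (Nat.modEq_zero_iff_dvd.2 dvd_rfl))
  have hpos : 0 < Fintype.card (Function.fixedPoints π) :=
    Fintype.card_pos_iff.2 ⟨⟨0, h0⟩⟩
  have hle := Nat.le_of_dvd hpos hd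
  by_contra hne
  have : Fintype.card (Function.fixedPoints π) < Fintype.card (ZMod p) :=
    Fintype.card_subtype_lt (x := t) hne
  rw [ZMod.card] at this
  omega

/-- In a `p`-group normalised by the translations whose orbits are the cosets of a subgroup of
order `p`, every normalising permutation is affine on each coset. -/
theorem affine_of_pgroup {p : ℕ} [hp : Fact p.Prime] {S : Subgroup (Perm G)}
    (hS : ∀ c, Nm (tr c) S) (r : ℕ) (hr : ∀ h ∈ S, h ^ p ^ r = 1) (ι : ZMod p →+ G)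
    (hι : Function.Injective ι) (hmem : ∀ t, tr (ι t) ∈ S) (hor : orb S hS ≤ ι.range)
    {σ : Perm G} (hσ : Nm σ S) (x : G) : ∃ l, ∀ t, σ (x + ι t) = σ x + ι (l * t) := by
  have mv : ∀ h ∈ S, ∀ z, ∃ l, h z = z + ι l := by
    intro h hh z
    obtain ⟨l, hl⟩ := hor ((sub_mem_orb hS (h z) z).2 ⟨h, hh, rfl⟩)
    exact ⟨l, by rw [hl]; abel⟩
  have fx : ∀ h ∈ S, ∀ z, ∃ l, ∀ t, h (z + ι t) = z + ι (t + l) := by
    intro h hh z
    obtain ⟨l, hl⟩ := mv h hh z
    have hh' : tr (ι (-l)) * h ∈ S := mul_mem (hmem _) hh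
    have ex : ∀ t, ∃ s, (tr (ι (-l)) * h) (z + ι t) = z + ι s := by
      intro t
      obtain ⟨s, hs⟩ := mv _ hh' (z + ι t)
      exact ⟨t + s, by rw [hs, map_add, add_assoc]⟩
    choose π hπ using ex
    have it : ∀ (j : ℕ) t, ((tr (ι (-l)) * h) ^ j) (z + ι t) = z + ι (π^[j] t) := by
      intro j
      induction j with
      | zero => intro t; rfl
      | succ j ih => intro t; rw [pow_succ, Perm.mul_apply, hπ, ih, Function.iterate_succ_apply]
    have h0 : π 0 = 0 := by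
      have := hπ 0
      rw [map_zero, add_zero, Perm.mul_apply, hl, tr_apply, add_assoc, ← map_add] at this
      have := hι (add_left_cancel this)
      rw [← this]; ring
    have hid := end_eq_id π r (fun t => by
      have := it (p ^ r) t
      rw [hr _ hh'] at this
      exact (hι (add_left_cancel this)).symm) h0
    refine ⟨l, fun t => ?_⟩
    have := hπ t
    rw [hid, Perm.mul_apply, tr_apply, map_neg] at this
    rw [map_add ι, ← add_assoc]
    exact add_neg_eq_iff_eq_add.1 this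
  obtain ⟨l, hl⟩ := fx _ (hσ _ (hmem 1)) (σ x)
  have nat : ∀ j : ℕ, σ (x + ι j) = σ x + ι (l * j) := by
    intro j
    induction j with
    | zero => simp
    | succ j ih =>
      have := hl (l * j)
      rw [← ih] at this
      simp only [Perm.mul_apply, Perm.coe_inv, Equiv.symm_apply_apply, tr_apply] at this
      rw [Nat.cast_succ, map_add ι, ← add_assoc, this, mul_add, mul_one]
  exact ⟨l, fun t => by simpa using nat t.val⟩

end Pool.Agent.FS.AbIso
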