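import Mathlib

/-! From fibre derivatives to a root of `x^5 + x + 1`. -/

namespace Pool.Agent.FS.AbIso

theorem root_of_deriv {G F : Type*} [AddCommGroup G] [Field F] (f g : G → G)
    (hf : Function.Injective f) (hg : Function.Surjective g)
    (hE : ∀ x y, f (f (f y + g x) + g y) + g y = x)
    (ι : F →+ G) (hι : Function.Injective ι) (α β : G → F)
    (hα : ∀ x t, f (x + ι t) = f x + ι (α x * t)) (hβ : ∀ x t, g (x + ι t) = g x + ι (β x * t)) :
    ∃ a : F, a ^ 5 + a + 1 = 0 := by
  have e1 : ∀ x y, α (f (f y + g x) + g y) * (α (f y + g x) * β x) = 1 := by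
    intro x y
    have h := hE (x + ι 1) y
    rw [hβ, ← add_assoc, hα, add_right_comm, hα, add_right_comm, hE] at h
    have := hι (add_left_cancel h)
    simpa using this
  have e2 : ∀ x y, α (f (f y + g x) + g y) * (α (f y + g x) * α y + β y) + β y = 0 := by
    intro x y
    have h := hE x (y + ι 1)
    rw [hα y, hβ y, add_right_comm (f y), hα (f y + g x), add_add_add_comm, ← map_add, hα,
      add_add_add_comm, ← map_add, hE] at h
    have h0 : ι (α (f (f y + g x) + g y) * (α (f y + g x) * (α y * 1) + β y * 1) + β y * 1) = ι 0 := by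
      rw [map_zero]; exact add_eq_left.mp h
    simpa using hι h0
  -- rewrite in terms of `w`, `y`
  have back : ∀ w y, f (f y + g (f w + g y)) + g y = w := fun w y =>
    hf (add_right_cancel (hE (f w + g y) y))
  have b0 : ∀ x, β x ≠ 0 := fun x h => by
    have := e1 x x
    rw [h] at this; simp at this
  have a0 : ∀ u, α u ≠ 0 := fun u h => by
    obtain ⟨x, hx⟩ := hg (u - f u)
    have := e1 x u
    rw [hx, add_sub_cancel, h] at this; simp at this
  have R1 : ∀ w y, α y + β (f w + g y) * β y * (α w + 1) = 0 := by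
    intro w y
    have h1 := e1 (f w + g y) y
    have h2 := e2 (f w + g y) y
    rw [back] at h1 h2
    linear_combination β (f w + g y) * h2 - α y * h1
  have R2 : ∀ u y, α (f u + g y) * (α u * α y + β y) + β y = 0 := by
    intro u y
    obtain ⟨x, hx⟩ := hg (u - f y)
    have := e2 x y
    rwa [hx, add_sub_cancel] at this
  have a1 : ∀ w, α w + 1 ≠ 0 := fun w h => by
    have := R1 w w
    rw [h] at this
    exact a0 w (by simpa using this)
  have M : ∀ u z, α z + 1 = β z * α z * (α u * (α u + 1)) := by
    intro u z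
    obtain ⟨y, hy⟩ := hg (z - f u)
    have h1 := R1 u y
    have h2 := R2 u y
    rw [hy, add_sub_cancel] at h1 h2
    have hb := b0 y
    have : β y * (α z + 1 - β z * α z * (α u * (α u + 1))) = 0 := by
      linear_combination h2 - α z * α u * h1
    rcases mul_eq_zero.mp this with h | h
    · exact absurd h hb
    · linear_combination h
  have B : ∀ z, β z * α z ^ 2 = 1 := by
    intro z
    have := M z z
    have h : (α z + 1) * (β z * α z ^ 2 - 1) = 0 := by linear_combination -this
    rcases mul_eq_zero.mp h with h | h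
    · exact absurd h (a1 z)
    · linear_combination h
  have C : ∀ u z, α z = α u ∨ α z = -1 - α u := by
    intro u z
    have h1 := M u z
    have h2 := B z
    have h : (α z - α u) * (α z - (-1 - α u)) = 0 := by
      linear_combination α z * h1 + α u * (α u + 1) * h2
    rcases mul_eq_zero.mp h with h | h
    · left; linear_combination h
    · right; linear_combination h
  have R : ∀ w y, α (f w + g y) ^ 2 * α y ^ 3 + (α w + 1) = 0 := by
    intro w y
    have h1 := R1 w y
    have h2 := B (f w + g y)
    have h3 := B y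
    linear_combination α (f w + g y) ^ 2 * α y ^ 2 * h1
      - (α w + 1) * (β y * α y ^ 2) * h2 - (α w + 1) * h3
  have r1 := R 0 0
  have r2 := R (f 0 + g 0) 0
  have ha := a0 0
  have ha1 := a1 0
  rcases C 0 (f 0 + g 0) with h | h
  · exact ⟨α 0, by rw [h] at r1; linear_combination r1⟩
  · rw [h] at r1 r2
    have k1 : (α 0 + 1) * α 0 ^ 3 + 1 = 0 := by
      have : (α 0 + 1) * ((α 0 + 1) * α 0 ^ 3 + 1) = 0 := by linear_combination r1
      exact (mul_eq_zero.mp this).resolve_left ha1
    have k2 : 2 * α 0 + 1 = 0 := by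
      rcases C 0 (f (f 0 + g 0) + g 0) with h' | h'
      · rw [h'] at r2
        have q : α 0 * (α 0 ^ 4 - 1) = 0 := by linear_combination r2
        have q4 : α 0 ^ 4 - 1 = 0 := (mul_eq_zero.mp q).resolve_left ha
        linear_combination α 0 * k1 - (α 0 + 1) * q4
      · rw [h'] at r2
        have q : α 0 * ((α 0 + 1) ^ 2 * α 0 ^ 2 - 1) = 0 := by linear_combination r2
        have q4 : (α 0 + 1) ^ 2 * α 0 ^ 2 - 1 = 0 := (mul_eq_zero.mp q).resolve_left ha
        have q5 : (α 0 + 1) * α 0 ^ 2 * (2 * α 0 + 1) = 0 := by linear_combination q4 + k1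
        exact (mul_eq_zero.mp q5).resolve_left (mul_ne_zero ha1 (pow_ne_zero 2 ha))
    refine ⟨α 0, ?_⟩
    linear_combination r1 - α 0 ^ 3 * k2

end Pool.Agent.FS.AbIso
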