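import Pool.Agent.FS.AbIso.Ito
import Pool.Agent.FS.AbIso.Root
import Pool.Agent.FS.AbIso.Orb

/-! Necessity: a prime dividing the order exactly once gives a root of `x^5 + x + 1`. -/

namespace Pool.Agent.FS.AbIso

open Equiv

variable {G : Type} [AddCommGroup G]

/-- The group generated by the translations and their conjugates is normalised by `T`, and its
commutator subgroup is abelian. -/
theorem exists_H (T : Perm G)
    (hU : ∀ a, ∃ b, T * tr a * T⁻¹ = tr b * (T⁻¹ * tr b * T))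
    (hU' : ∀ b, ∃ a, T * tr a * T⁻¹ = tr b * (T⁻¹ * tr b * T)) :
    ∃ H : Subgroup (Perm G), (∀ c, tr c ∈ H) ∧ Nm T H ∧ Nm T⁻¹ H ∧
      ∀ x ∈ ⁅H, H⁆, ∀ y ∈ ⁅H, H⁆, x * y = y * x := by
  set v : G → Perm G := fun b => T⁻¹ * tr b * T with hv
  have vmul : ∀ b c, v b * v c = v (b + c) := fun b c => by
    simp only [hv, ← tr_mul]; group
  have vzero : v 0 = 1 := by simp [hv, tr_zero]
  have vinv : ∀ b, (v b)⁻¹ = v (-b) := fun b => by
    rw [inv_eq_iff_mul_eq_one, vmul, add_neg_cancel, vzero]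
  have swap : ∀ b c, ∃ c' b', v b * tr c = tr c' * v b' := by
    intro b c
    obtain ⟨a1, h1⟩ := hU' b
    obtain ⟨a2, h2⟩ := hU' c
    obtain ⟨d, h3⟩ := hU (a1 + a2)
    have e : tr b * v b * (tr c * v c) = tr d * v d := by
      simp only [hv]
      rw [← h1, ← h2, ← h3, ← tr_mul]; group
    refine ⟨-b + d, d + -c, ?_⟩
    rw [← tr_mul, ← vmul, ← tr_inv, ← vinv]
    calc v b * tr c = (tr b)⁻¹ * (tr b * v b * (tr c * v c)) * (v c)⁻¹ := by group
      _ = _ := by rw [e]; group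
  let H : Subgroup (Perm G) :=
    { carrier := {h | ∃ c b, h = tr c * v b}
      one_mem' := ⟨0, 0, by rw [tr_zero, vzero, one_mul]⟩
      mul_mem' := by
        rintro _ _ ⟨c, b, rfl⟩ ⟨c', b', rfl⟩
        obtain ⟨c2, b2, e⟩ := swap b c'
        refine ⟨c + c2, b2 + b', ?_⟩
        rw [← tr_mul, ← vmul]
        calc tr c * v b * (tr c' * v b') = tr c * (v b * tr c') * v b' := by group
          _ = _ := by rw [e]; group
      inv_mem' := by
        rintro _ ⟨c, b, rfl⟩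
        obtain ⟨c2, b2, e⟩ := swap (-b) (-c)
        exact ⟨c2, b2, by rw [mul_inv_rev, tr_inv, vinv, e]⟩ }
  let A : Subgroup (Perm G) :=
    { carrier := {h | ∃ c, h = tr c}
      one_mem' := ⟨0, tr_zero.symm⟩
      mul_mem' := by
        rintro _ _ ⟨c, rfl⟩ ⟨c', rfl⟩
        exact ⟨_, tr_mul c c'⟩
      inv_mem' := by
        rintro _ ⟨c, rfl⟩
        exact ⟨_, tr_inv c⟩ }
  let B : Subgroup (Perm G) :=
    { carrier := {h | ∃ c, h = v c}
      one_mem' := ⟨0, vzero.symm⟩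
      mul_mem' := by
        rintro _ _ ⟨c, rfl⟩ ⟨c', rfl⟩
        exact ⟨_, vmul c c'⟩
      inv_mem' := by
        rintro _ ⟨c, rfl⟩
        exact ⟨_, vinv c⟩ }
  have trH : ∀ c, tr c ∈ H := fun c => ⟨c, 0, by rw [vzero, mul_one]⟩
  have vH : ∀ c, v c ∈ H := fun c => ⟨0, c, by rw [tr_zero, one_mul]⟩
  refine ⟨H, trH, ?_, ?_, ito A B H ?_ ?_ ?_ ?_ ?_⟩
  · rintro _ ⟨c, b, rfl⟩
    obtain ⟨d, hd⟩ := hU c
    have e : T * (tr c * v b) * T⁻¹ = (T * tr c * T⁻¹) * tr b := by simp only [hv]; group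
    rw [e, hd]
    exact H.mul_mem (H.mul_mem (trH d) (vH d)) (trH b)
  · rintro _ ⟨c, b, rfl⟩
    obtain ⟨a, ha⟩ := hU' b
    have e1 : T⁻¹ * v b * T = (v b)⁻¹ * tr a := by
      calc T⁻¹ * v b * T = (v b)⁻¹ * (T⁻¹ * (tr b * (T⁻¹ * tr b * T)) * T) := by
            simp only [hv]; group
        _ = _ := by rw [← ha]; group
    have e : T⁻¹ * (tr c * v b) * T⁻¹⁻¹ = v c * (T⁻¹ * v b * T) := by simp only [hv]; group
    rw [e, e1]
    exact H.mul_mem (vH c) (H.mul_mem (H.inv_mem (vH b)) (trH a))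
  · rintro _ ⟨c, rfl⟩ _ ⟨c', rfl⟩
    rw [tr_mul, tr_mul, add_comm]
  · rintro _ ⟨c, rfl⟩ _ ⟨c', rfl⟩
    rw [vmul, vmul, add_comm]
  · rintro _ ⟨c, rfl⟩
    exact trH c
  · rintro _ ⟨c, rfl⟩
    exact vH c
  · rintro _ ⟨c, b, rfl⟩
    exact ⟨_, ⟨c, rfl⟩, _, ⟨b, rfl⟩, rfl⟩

theorem core (p : ℕ) [hp : Fact p.Prime] (n : ℕ) :
    ∀ (G : Type) [AddCommGroup G] [Finite G], Nat.card G = n → p ∣ n → ¬ p ^ 2 ∣ n →
      ∀ f g : G → G, (∀ x y, f (f (f y + g x) + g y) + g y = x) →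
        ∃ a : ZMod p, a ^ 5 + a + 1 = 0 := by
  induction n using Nat.strong_induction_on with
  | _ n ih =>
  intro G _ _ hn hpn hp2 f g hE
  have hg : Function.Bijective g := Finite.injective_iff_bijective.1 fun x x' h => by
    rw [← hE x 0, h, hE]
  have hf : Function.Bijective f := Finite.surjective_iff_bijective.1 fun z =>
    ⟨_, add_right_cancel (hE (z + g 0) 0)⟩
  obtain ⟨T, hT⟩ : ∃ T : Perm G, ∀ x, T x = f x + g 0 :=
    ⟨tr (g 0) * Equiv.ofBijective f hf, fun x => rfl⟩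
  have hfT : ∀ x, f x = T x - g 0 := fun x => by rw [hT]; abel
  have hgT : ∀ x, g x = T⁻¹ (T⁻¹ x) - f 0 := fun x => by
    have : T⁻¹ (T⁻¹ x) = f 0 + g x := by
      rw [Perm.inv_eq_iff_eq, Perm.inv_eq_iff_eq, hT, hT, hE]
    rw [this]; abel
  have hUy : ∀ y, T * tr (f y - f 0) * T⁻¹ =
      tr (g 0 - g y) * (T⁻¹ * tr (g 0 - g y) * T) := by
    intro y
    ext x
    simp only [Perm.mul_apply, tr_apply]
    have h := hE (T x) y
    have e1 : f y + g (T x) = T⁻¹ x + (f y - f 0) := by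
      rw [hgT]; simp only [Perm.coe_inv, Equiv.symm_apply_apply]; abel
    rw [e1] at h
    have e2 : T⁻¹ (T x + (g 0 - g y)) = f (T⁻¹ x + (f y - f 0)) + g y := by
      rw [Perm.inv_eq_iff_eq, hT (f _ + g y), ← h]; abel
    rw [e2, hT]; abel
  obtain ⟨H, trH, nT, nT', comm⟩ := exists_H T
    (fun a => by
      obtain ⟨y, hy⟩ := hf.2 (a + f 0)
      exact ⟨g 0 - g y, by rw [← hUy y, hy, add_sub_cancel_right]⟩)
    (fun b => by
      obtain ⟨y, hy⟩ := hg.2 (g 0 - b)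
      exact ⟨f y - f 0, by rw [hUy y, hy, sub_sub_cancel]⟩)
  obtain ⟨r, m, hm, hW⟩ := Nat.exists_eq_pow_mul_and_not_dvd
    (Nat.card_pos (α := Perm G)).ne' p hp.out.ne_one
  let N : Subgroup (Perm G) :=
    { carrier := {h | h ∈ ⁅H, H⁆ ∧ h ^ m = 1}
      one_mem' := ⟨one_mem _, one_pow _⟩
      mul_mem' := fun {a b} ha hb => ⟨mul_mem ha.1 hb.1, by
        rw [Commute.mul_pow (comm a ha.1 b hb.1), ha.2, hb.2, one_mul]⟩
      inv_mem' := fun {a} ha => ⟨inv_mem ha.1, by rw [inv_pow, ha.2, inv_one]⟩ }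
  have nN : ∀ σ, Nm σ H → Nm σ N := fun σ hσ h hh =>
    ⟨hσ.comm h hh.1, by rw [conj_pow, hh.2]; group⟩
  have tN : ∀ c, Nm (tr c) N := fun c => nN _ (Nm.self (trH c))
  have pN : ¬ p ∣ Nat.card (orb N tN) := by
    intro h
    rw [card_orb] at h
    obtain ⟨x, hx⟩ := exists_prime_orderOf_dvd_card' p
      (h.trans (MulAction.stabilizer N (0 : G)).index_dvd_card)
    have : x ^ m = 1 := Subtype.ext x.2.2
    exact hm (hx ▸ orderOf_dvd_of_pow_eq_one this)
  by_cases hb : orb N tN = ⊥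
  · have hD : ∀ h ∈ ⁅H, H⁆, h ^ p ^ r = 1 := by
      intro h hh
      have hN : h ^ p ^ r ∈ N := ⟨pow_mem hh _, by rw [← pow_mul, ← hW, pow_card_eq_one']⟩
      ext y
      have := (sub_mem_orb tN _ y).2 ⟨_, hN, rfl⟩
      rw [hb, AddSubgroup.mem_bot, sub_eq_zero] at this
      exact this
    let S : Subgroup (Perm G) :=
      { carrier := {h | h ∈ H ∧ h ^ p ∈ ⁅H, H⁆}
        one_mem' := ⟨one_mem _, by rw [one_pow]; exact one_mem _⟩
        mul_mem' := fun {a b} ha hb => ⟨mul_mem ha.1 hb.1, by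
          have := mul_mem (mul_mem (mul_pow_mem ha.1 hb.1 p) ha.2) hb.2
          simpa using this⟩
        inv_mem' := fun {a} ha => ⟨inv_mem ha.1, by rw [inv_pow]; exact inv_mem ha.2⟩ }
    have nS : ∀ σ, Nm σ H → Nm σ S := fun σ hσ h hh =>
      ⟨hσ h hh.1, by rw [conj_pow]; exact hσ.comm _ hh.2⟩
    have tS : ∀ c, Nm (tr c) S := fun c => nS _ (Nm.self (trH c))
    have hr : ∀ h ∈ S, h ^ p ^ (r + 1) = 1 := fun h hh => by
      rw [pow_succ', pow_mul]; exact hD _ hh.2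
    have pS : IsPGroup p S := fun h => ⟨r + 1, Subtype.ext (hr h h.2)⟩
    obtain ⟨k, hk⟩ := exists_prime_addOrderOf_dvd_card' (G := G) p (hn ▸ hpn)
    let ι : ZMod p →+ G := ZMod.lift p ⟨zmultiplesHom G k, by
      simp [← hk]⟩
    have hι : Function.Injective ι := by
      refine ZMod.lift_injective p |>.2 fun j hj => ?_
      rw [ZMod.intCast_zmod_eq_zero_iff_dvd, ← hk]
      exact addOrderOf_dvd_iff_zsmul_eq_zero.2 hj
    have hmem : ∀ t, tr (ι t) ∈ S := fun t => ⟨trH _, by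
      rw [tr_pow, ← map_nsmul, nsmul_eq_mul, ZMod.natCast_self, zero_mul, map_zero, tr_zero]
      exact one_mem _⟩
    have hor : orb S tS ≤ ι.range := by
      have h1 : ι.range ≤ orb S tS := by
        rintro _ ⟨t, rfl⟩
        exact ⟨_, hmem t, by rw [tr_apply, zero_add]⟩
      have h2 : Nat.card ι.range = p := by
        rw [← Nat.card_congr (ι.ofInjective hι).toEquiv, Nat.card_zmod]
      obtain ⟨j, hj⟩ := pS.index (MulAction.stabilizer S (0 : G))
      rw [← card_orb tS] at hj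
      have h3 : p ^ j ∣ n := hn ▸ hj ▸ (orb S tS).card_addSubgroup_dvd_card
      have h4 : j ≤ 1 := by
        by_contra hc
        exact hp2 ((pow_dvd_pow p (by omega)).trans h3)
      have h5 : Nat.card (orb S tS) ≤ Nat.card ι.range := by
        rw [hj, h2]
        calc p ^ j ≤ p ^ 1 := Nat.pow_le_pow_right hp.out.pos h4
          _ = p := pow_one p
      exact (AddSubgroup.eq_of_le_of_card_ge h1 h5).ge
    choose α hα using affine_of_pgroup tS (r + 1) hr ι hι hmem hor (nS T nT)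
    choose β hβ using affine_of_pgroup tS (r + 1) hr ι hι hmem hor (nS T⁻¹ nT')
    refine root_of_deriv f g hf.1 hg.2 hE ι hι α (fun x => β (T⁻¹ x) * β x) (fun x t => ?_)
      (fun x t => ?_)
    · rw [hfT, hfT x, hα]; abel
    · rw [hgT, hgT x, hβ, hβ, mul_assoc]; abel
  · set M := orb N tN with hM
    have hc := M.card_eq_card_quotient_mul_card_addSubgroup
    have h1 : 1 < Nat.card M := (AddSubgroup.one_lt_card_iff_ne_bot M).2 hb
    have h0 : 0 < Nat.card (G ⧸ M) := Nat.card_pos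
    have cf : ∀ x y : G, (x : G ⧸ M) = y → (f x : G ⧸ M) = f y := by
      intro x y h
      rw [QuotientAddGroup.eq_iff_sub_mem] at h ⊢
      rw [hfT, hfT y, sub_sub_sub_cancel_right]
      exact orb_map tN (nN T nT) h
    have cg : ∀ x y : G, (x : G ⧸ M) = y → (g x : G ⧸ M) = g y := by
      intro x y h
      rw [QuotientAddGroup.eq_iff_sub_mem] at h ⊢
      rw [hgT, hgT y, sub_sub_sub_cancel_right]
      exact orb_map tN (nN _ nT') (orb_map tN (nN _ nT') h)
    have qf : ∀ x : G, (f (x : G ⧸ M).out : G ⧸ M) = f x := fun x =>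
      cf _ _ (QuotientAddGroup.out_eq' _)
    have qg : ∀ x : G, (g (x : G ⧸ M).out : G ⧸ M) = g x := fun x =>
      cg _ _ (QuotientAddGroup.out_eq' _)
    rw [hn] at hc
    refine ih (Nat.card (G ⧸ M)) (by rw [hc]; nlinarith) (G ⧸ M) rfl
      (((Nat.Prime.dvd_mul hp.out).1 (hc ▸ hpn)).resolve_right pN)
      (fun h => hp2 (hc ▸ h.mul_right _)) (fun q => (f q.out : G ⧸ M)) (fun q => (g q.out : G ⧸ M))
      fun x y => ?_
    obtain ⟨x, rfl⟩ := QuotientAddGroup.mk_surjective x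
    obtain ⟨y, rfl⟩ := QuotientAddGroup.mk_surjective y
    simp only [qf, qg, ← QuotientAddGroup.mk_add, hE]

end Pool.Agent.FS.AbIso
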