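import Mathlib

/-! Linear models from roots and companion matrices. -/

namespace Pool.Agent.FS.AbIso

/-- There is an abelian group of order `n` with maps `f`, `g` satisfying the identity. -/
def Lin (n : ℕ) : Prop :=
  ∃ (G : Type) (_ : AddCommGroup G) (_ : Finite G), Nat.card G = n ∧
    ∃ f g : G → G, ∀ x y, f (f (f y + g x) + g y) + g y = x

theorem lin_mul {a b : ℕ} (ha : Lin a) (hb : Lin b) : Lin (a * b) := by
  obtain ⟨G, _, _, rfl, f, g, h⟩ := ha
  obtain ⟨G', _, _, rfl, f', g', h'⟩ := hb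
  refine ⟨G × G', inferInstance, inferInstance, Nat.card_prod _ _,
    fun x => (f x.1, f' x.2), fun x => (g x.1, g' x.2), fun x y => ?_⟩
  exact Prod.ext (h x.1 y.1) (h' x.2 y.2)

theorem lin_root {k : ℕ} (hk : k ≠ 0) (a : ZMod k) (ha : a ^ 5 + a + 1 = 0) : Lin k := by
  have : NeZero k := ⟨hk⟩
  refine ⟨ZMod k, inferInstance, inferInstance, Nat.card_zmod k,
    fun x => a * x, fun x => (a ^ 4 + 1) ^ 2 * x, fun x y => ?_⟩
  linear_combination ((a ^ 5 + a - 1) * x + (a ^ 4 + a ^ 3 + 1) * y) * ha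

theorem lin_sq {k : ℕ} (hk : k ≠ 0) : Lin (k ^ 2) := by
  have : NeZero k := ⟨hk⟩
  refine ⟨ZMod k × ZMod k, inferInstance, inferInstance, by simp [pow_two],
    fun x => (-x.2, x.1 - x.2), fun x => (-x.2, x.1 - x.2), fun x y => ?_⟩
  ext <;> simp <;> ring

theorem lin_cube {k : ℕ} (hk : k ≠ 0) : Lin (k ^ 3) := by
  have : NeZero k := ⟨hk⟩
  refine ⟨ZMod k × ZMod k × ZMod k, inferInstance, inferInstance, by simp [pow_three],
    fun x => (-x.2.2, x.1, x.2.1 + x.2.2),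
    fun x => (x.1 + x.2.2, x.2.1 - x.1, -x.2.1), fun x y => ?_⟩
  ext <;> simp <;> ring

theorem lin_of_roots (n : ℕ) (hn : n ≠ 0)
    (h : ∀ p : ℕ, p.Prime → p ∣ n → ¬ p ^ 2 ∣ n → ∃ a : ZMod p, a ^ 5 + a + 1 = 0) : Lin n := by
  induction n using Nat.recOnPosPrimePosCoprime with
  | zero => exact absurd rfl hn
  | one => exact lin_root one_ne_zero 0 (Subsingleton.elim _ _)
  | prime_pow p e hp he =>
    rcases Nat.lt_or_ge e 2 with h2 | h2
    · obtain rfl : e = 1 := by omega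
      obtain ⟨a, ha⟩ := h p hp (by simp) (by
        rw [Nat.pow_dvd_pow_iff_le_right hp.one_lt]; omega)
      rw [pow_one]
      exact lin_root hp.ne_zero a ha
    · obtain ⟨i, j, rfl⟩ : ∃ i j, e = i * 2 + j * 3 := ⟨(e - 3 * (e % 2)) / 2, e % 2, by omega⟩
      rw [pow_add, pow_mul, pow_mul]
      exact lin_mul (lin_sq (pow_ne_zero _ hp.ne_zero)) (lin_cube (pow_ne_zero _ hp.ne_zero))
  | coprime a b ha hb hab iha ihb =>
    refine lin_mul (iha (by omega) fun p hp h1 h2 => h p hp (h1.mul_right _) fun h3 => h2 ?_)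
      (ihb (by omega) fun p hp h1 h2 => h p hp (h1.mul_left _) fun h3 => h2 ?_)
    · exact (Nat.Coprime.pow_left 2 (Nat.Coprime.coprime_dvd_left h1 hab)).dvd_of_dvd_mul_right h3
    · exact (Nat.Coprime.pow_left 2 (Nat.Coprime.coprime_dvd_left h1 hab.symm)).dvd_of_dvd_mul_left h3

end Pool.Agent.FS.AbIso
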