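import Mathlib

/-! Ito's theorem: a product of two abelian subgroups is metabelian. -/

namespace Pool.Agent.FS.AbIso

open scoped commutatorElement

theorem ito {Γ : Type*} [Group Γ] (A B H : Subgroup Γ)
    (hA : ∀ a ∈ A, ∀ a' ∈ A, a * a' = a' * a) (hB : ∀ b ∈ B, ∀ b' ∈ B, b * b' = b' * b)
    (hAH : A ≤ H) (hBH : B ≤ H) (hH : ∀ h ∈ H, ∃ a ∈ A, ∃ b ∈ B, h = a * b) :
    ∀ x ∈ ⁅H, H⁆, ∀ y ∈ ⁅H, H⁆, x * y = y * x := by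
  have hH' : ∀ h ∈ H, ∃ b ∈ B, ∃ a ∈ A, h = b * a := by
    intro h hh
    obtain ⟨a, ha, b, hb, e⟩ := hH h⁻¹ (H.inv_mem hh)
    refine ⟨b⁻¹, B.inv_mem hb, a⁻¹, A.inv_mem ha, ?_⟩
    rw [← mul_inv_rev, ← e, inv_inv]
  set S : Set Γ := {x | ∃ a ∈ A, ∃ b ∈ B, x = a * b * a⁻¹ * b⁻¹} with hS
  have cA : ∀ a ∈ A, ∀ a' ∈ A, a' * a * a'⁻¹ = a := fun a ha a' ha' => by
    rw [← hA a ha a' ha']; group
  have cB : ∀ b ∈ B, ∀ b' ∈ B, b' * b * b'⁻¹ = b := fun b hb b' hb' => by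
    rw [← hB b hb b' hb']; group
  -- dropping factors
  have dA : ∀ a ∈ A, ∀ a' ∈ A, ∀ b : Γ, a * (b * a') * a⁻¹ * (b * a')⁻¹ = a * b * a⁻¹ * b⁻¹ := by
    intro a ha a' ha' b
    have := cA a⁻¹ (A.inv_mem ha) a' ha'
    calc a * (b * a') * a⁻¹ * (b * a')⁻¹ = a * b * (a' * a⁻¹ * a'⁻¹) * b⁻¹ := by group
      _ = _ := by rw [this]
  have dB : ∀ b ∈ B, ∀ b' ∈ B, ∀ a : Γ, (a * b') * b * (a * b')⁻¹ * b⁻¹ = a * b * a⁻¹ * b⁻¹ := by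
    intro b hb b' hb' a
    have := cB b hb b' hb'
    calc (a * b') * b * (a * b')⁻¹ * b⁻¹ = a * (b' * b * b'⁻¹) * a⁻¹ * b⁻¹ := by group
      _ = _ := by rw [this]
  have conjA : ∀ a ∈ A, ∀ a' ∈ A, ∀ b b1 a1 : Γ, a1 ∈ A → a' * b * a'⁻¹ = b1 * a1 →
      a' * (a * b * a⁻¹ * b⁻¹) * a'⁻¹ = a * b1 * a⁻¹ * b1⁻¹ := by
    intro a ha a' ha' b b1 a1 ha1 e
    rw [← dA a ha a1 ha1 b1, ← e]
    have h1 := cA a ha a' ha'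
    calc a' * (a * b * a⁻¹ * b⁻¹) * a'⁻¹
        = (a' * a * a'⁻¹) * (a' * b * a'⁻¹) * (a' * a * a'⁻¹)⁻¹ * (a' * b * a'⁻¹)⁻¹ := by group
      _ = _ := by rw [h1]
  have conjB : ∀ b ∈ B, ∀ b' ∈ B, ∀ a a2 b2 : Γ, b2 ∈ B → b' * a * b'⁻¹ = a2 * b2 →
      b' * (a * b * a⁻¹ * b⁻¹) * b'⁻¹ = a2 * b * a2⁻¹ * b⁻¹ := by
    intro b hb b' hb' a a2 b2 hb2 e
    rw [← dB b hb b2 hb2 a2, ← e]
    have h1 := cB b hb b' hb'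
    calc b' * (a * b * a⁻¹ * b⁻¹) * b'⁻¹
        = (b' * a * b'⁻¹) * (b' * b * b'⁻¹) * (b' * a * b'⁻¹)⁻¹ * (b' * b * b'⁻¹)⁻¹ := by group
      _ = _ := by rw [h1]
  have exA : ∀ a' ∈ A, ∀ b ∈ B, ∃ b1 ∈ B, ∃ a1 ∈ A, a' * b * a'⁻¹ = b1 * a1 := fun a' ha' b hb =>
    hH' _ (H.mul_mem (H.mul_mem (hAH ha') (hBH hb)) (H.inv_mem (hAH ha')))
  have exB : ∀ b' ∈ B, ∀ a ∈ A, ∃ a2 ∈ A, ∃ b2 ∈ B, b' * a * b'⁻¹ = a2 * b2 := fun b' hb' a ha =>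
    hH _ (H.mul_mem (H.mul_mem (hBH hb') (hAH ha)) (H.inv_mem (hBH hb')))
  have key : ∀ a ∈ A, ∀ b ∈ B, ∀ a' ∈ A, ∀ b' ∈ B,
      b' * (a' * (a * b * a⁻¹ * b⁻¹) * a'⁻¹) * b'⁻¹ =
        a' * (b' * (a * b * a⁻¹ * b⁻¹) * b'⁻¹) * a'⁻¹ := by
    intro a ha b hb a' ha' b' hb'
    obtain ⟨b1, hb1, a1, ha1, e1⟩ := exA a' ha' b hb
    obtain ⟨a2, ha2, b2, hb2, e2⟩ := exB b' hb' a ha
    rw [conjA a ha a' ha' b b1 a1 ha1 e1, conjB b1 hb1 b' hb' a a2 b2 hb2 e2,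
      conjB b hb b' hb' a a2 b2 hb2 e2, conjA a2 ha2 a' ha' b b1 a1 ha1 e1]
  have comS : ∀ x ∈ S, ∀ y ∈ S, x * y = y * x := by
    rintro x ⟨a, ha, b, hb, rfl⟩ y ⟨a', ha', b', hb', rfl⟩
    have k := key a ha b hb a'⁻¹ (A.inv_mem ha') b'⁻¹ (B.inv_mem hb')
    generalize a * b * a⁻¹ * b⁻¹ = c at k ⊢
    have : a' * b' * a'⁻¹ * b'⁻¹ * c = b' * 1 * b'⁻¹ * (a' * b' * a'⁻¹ * b'⁻¹ * c) := by group
    calc c * (a' * b' * a'⁻¹ * b'⁻¹)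
        = a' * b' * (b'⁻¹ * (a'⁻¹ * c * a'⁻¹⁻¹) * b'⁻¹⁻¹) * a'⁻¹ * b'⁻¹ := by group
      _ = a' * b' * (a'⁻¹ * (b'⁻¹ * c * b'⁻¹⁻¹) * a'⁻¹⁻¹) * a'⁻¹ * b'⁻¹ := by rw [k]
      _ = _ := by group
  have nA : ∀ a' ∈ A, ∀ a ∈ A, ∀ b ∈ B, a' * (a * b * a⁻¹ * b⁻¹) * a'⁻¹ ∈ S := by
    intro a' ha' a ha b hb
    obtain ⟨b1, hb1, a1, ha1, e1⟩ := exA a' ha' b hb
    exact ⟨a, ha, b1, hb1, conjA a ha a' ha' b b1 a1 ha1 e1⟩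
  have nB : ∀ b' ∈ B, ∀ a ∈ A, ∀ b ∈ B, b' * (a * b * a⁻¹ * b⁻¹) * b'⁻¹ ∈ S := by
    intro b' hb' a ha b hb
    obtain ⟨a2, ha2, b2, hb2, e2⟩ := exB b' hb' a ha
    exact ⟨a2, ha2, b, hb, conjB b hb b' hb' a a2 b2 hb2 e2⟩
  have le : ⁅H, H⁆ ≤ Subgroup.closure S := by
    rw [Subgroup.commutator_le]
    intro h1 hh1 h2 hh2
    obtain ⟨a1, ha1, b1, hb1, rfl⟩ := hH h1 hh1
    obtain ⟨a2, ha2, b2, hb2, rfl⟩ := hH h2 hh2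
    have e : ⁅a1 * b1, a2 * b2⁆ =
        (a1 * (a2 * b1 * a2⁻¹ * b1⁻¹) * a1⁻¹)⁻¹ * (a2 * (a1 * b2 * a1⁻¹ * b2⁻¹) * a2⁻¹) := by
      have h1 := cB b2 hb2 b1 hb1
      have h2 := hA a1 ha1 a2 ha2
      rw [commutatorElement_def]
      calc a1 * b1 * (a2 * b2) * (a1 * b1)⁻¹ * (a2 * b2)⁻¹
          = a1 * b1 * a2 * b1⁻¹ * (b1 * b2 * b1⁻¹) * a1⁻¹ * b2⁻¹ * a2⁻¹ := by group
        _ = a1 * b1 * a2 * b1⁻¹ * ((a1 * a2)⁻¹ * (a1 * a2)) * b2 * a1⁻¹ * b2⁻¹ * a2⁻¹ := by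
          rw [h1]; group
        _ = a1 * b1 * a2 * b1⁻¹ * ((a1 * a2)⁻¹ * (a2 * a1)) * b2 * a1⁻¹ * b2⁻¹ * a2⁻¹ := by
          rw [← h2]
        _ = _ := by group
    rw [e]
    exact mul_mem (inv_mem (Subgroup.subset_closure (nA a1 ha1 a2 ha2 b1 hb1)))
      (Subgroup.subset_closure (nA a2 ha2 a1 ha1 b2 hb2))
  intro x hx y hy
  have hx' := le hx
  have hy' := le hy
  have c1 : ∀ s ∈ S, ∀ z ∈ Subgroup.closure S, Commute s z := by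
    intro s hs z hz
    induction hz using Subgroup.closure_induction with
    | mem t ht => exact comS s hs t ht
    | one => exact Commute.one_right _
    | mul u v _ _ hu hv => exact hu.mul_right hv
    | inv u _ hu => exact hu.inv_right
  have c2 : ∀ z ∈ Subgroup.closure S, Commute z y := by
    intro z hz
    induction hz using Subgroup.closure_induction with
    | mem t ht => exact c1 t ht y hy'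
    | one => exact Commute.one_left _
    | mul u v _ _ hu hv => exact hu.mul_left hv
    | inv u _ hu => exact hu.inv_left
  exact c2 x hx'

end Pool.Agent.FS.AbIso
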